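import Pool.Agent.Y782.WU.Stm

/-!
# Project WU: labels
-/

set_option autoImplicit false

open MeasureTheory ProbabilityTheory Filter Topology Set
open scoped ENNReal NNReal BigOperators unitInterval

namespace Pool.Agent.Y284.WU

open Pool.Agent.Y782.WU

section gen

variable {ι X Z : Type} [MeasurableSpace X] [MeasurableSpace Z]

/-- pairs of independent families -/
theorem pair_law (μ : ι → Measure X) (ν : ι → Measure Z) [∀ i, IsProbabilityMeasure (μ i)]
    [∀ i, IsProbabilityMeasure (ν i)] :
    Measure.map (fun (p : (ι → X) × (ι → Z)) (i : ι) => (p.1 i, p.2 i))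
      ((Measure.infinitePi μ).prod (Measure.infinitePi ν)) =
      Measure.infinitePi (fun i => (μ i).prod (ν i)) := by
  classical
  refine Measure.eq_infinitePi _ fun s t ht => ?_
  rw [Measure.map_apply (by fun_prop) (.pi s.countable_toSet fun i _ => ht i)]
  obtain ⟨A, hA⟩ : ∃ A : Set ((s → X) × (s → Z)), A = {p | ∀ i : s, (p.1 i, p.2 i) ∈ t i} := ⟨_, rfl⟩
  have hAm : MeasurableSet A := by
    have : A = ⋂ i : s, (fun p : (s → X) × (s → Z) => (p.1 i, p.2 i)) ⁻¹' t i := by
      rw [hA]; ext p; simp
    rw [this]
    exact MeasurableSet.iInter fun i => (by fun_prop :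
      Measurable (fun p : (s → X) × (s → Z) => (p.1 i, p.2 i))) (ht i)
  have h1 : (fun (p : (ι → X) × (ι → Z)) (i : ι) => (p.1 i, p.2 i)) ⁻¹' (Set.pi s t) =
      (Prod.map (s.restrict (π := fun _ => X)) (s.restrict (π := fun _ => Z))) ⁻¹' A := by
    rw [hA]
    ext p
    simp
  rw [h1, ← Measure.map_apply (by fun_prop) hAm,
    ← Measure.map_prod_map _ _ (by fun_prop) (by fun_prop), Measure.infinitePi_map_restrict,
    Measure.infinitePi_map_restrict]
  have h2 := measurePreserving_arrowProdEquivProdArrow X Z s (fun i => μ i) (fun i => ν i)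
  rw [← h2.map_eq, Measure.map_apply h2.measurable hAm]
  have h3 : (MeasurableEquiv.arrowProdEquivProdArrow X Z s) ⁻¹' A =
      Set.pi univ (fun i : s => t i) := by
    rw [hA]
    ext f
    simp [MeasurableEquiv.arrowProdEquivProdArrow, Equiv.arrowProdEquivProdArrow]
  rw [h3, Measure.pi_pi]
  exact Finset.prod_coe_sort s (fun i => ((μ i).prod (ν i)) (t i))

/-- pairs of independent families -/
theorem split_law (μ : ι → Measure X) (ν : ι → Measure Z) [∀ i, IsProbabilityMeasure (μ i)]
    [∀ i, IsProbabilityMeasure (ν i)] :
    Measure.map (fun (f : ι → X × Z) => ((fun i => (f i).1), (fun i => (f i).2)))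
      (Measure.infinitePi (fun i => (μ i).prod (ν i))) =
      (Measure.infinitePi μ).prod (Measure.infinitePi ν) := by
  rw [← pair_law μ ν, Measure.map_map (by fun_prop) (by fun_prop)]
  exact Measure.map_id

/-- exchange of the indices -/
theorem swap_law (V : Type) :
    Measure.map (fun (f : V → ℕ → I) (n : ℕ) (v : V) => f v n)
      (Measure.infinitePi (fun _ : V => Measure.infinitePi (fun _ : ℕ => (volume : Measure I)))) =
      MU V := by
  have h1 := Measure.infinitePi_map_curry (ι := V) (κ := ℕ) (X := I)
    (fun _ _ => (volume : Measure I))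
  have h2 := Measure.infinitePi_map_curry (ι := ℕ) (κ := V) (X := I)
    (fun _ _ => (volume : Measure I))
  have h3 := Measure.infinitePi_map_piCongrLeft (X := fun _ : ℕ × V => I)
    (fun _ => (volume : Measure I)) (Equiv.prodComm V ℕ)
  unfold MU
  rw [← h1, ← h2, ← h3, Measure.map_map (by fun_prop) (by fun_prop),
    Measure.map_map (by fun_prop) (by fun_prop)]
  congr 1

end gen

theorem lab : S_LAB := by
  obtain ⟨ν, hν⟩ : ∃ ν : Measure (I × (ℕ → I) × (ℕ → I)), ν = (volume : Measure I).prod
    ((Measure.infinitePi (fun _ : ℕ => (volume : Measure I))).prod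
      (Measure.infinitePi (fun _ : ℕ => (volume : Measure I)))) := ⟨_, rfl⟩
  have hp : IsProbabilityMeasure ν := by rw [hν]; infer_instance
  obtain ⟨dec, hdec, hmap⟩ := Measure.exists_measurable_map_eq ν
  refine ⟨dec, hdec, fun V _ => ?_⟩
  have h0 : Measure.map (fun (U : V → I) v => dec (U v))
      (Measure.infinitePi (fun _ : V => (volume : Measure I))) =
      Measure.infinitePi (fun _ : V => ν) := by
    rw [Measure.infinitePi_map_pi (fun _ : V => (volume : Measure I)) (f := fun _ => dec)
      (fun _ => hdec)]
    simp only [hmap]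
  have h1 := split_law (ι := V) (fun _ => (volume : Measure I))
    (fun _ => (Measure.infinitePi (fun _ : ℕ => (volume : Measure I))).prod
      (Measure.infinitePi (fun _ : ℕ => (volume : Measure I))))
  have h2 := split_law (ι := V) (fun _ => Measure.infinitePi (fun _ : ℕ => (volume : Measure I)))
    (fun _ => Measure.infinitePi (fun _ : ℕ => (volume : Measure I)))
  have h3 := swap_law V
  have e1 : (fun U : V → I => ((fun v => (dec (U v)).1), (fun v => (dec (U v)).2.1),
        (fun (n : ℕ) v => (dec (U v)).2.2 n))) =
      (Prod.map (id : (V → I) → (V → I)) (Prod.map (id : (V → ℕ → I) → (V → ℕ → I))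
        (fun (f : V → ℕ → I) (n : ℕ) (v : V) => f v n))) ∘
      (Prod.map (id : (V → I) → (V → I))
        (fun (f : V → (ℕ → I) × (ℕ → I)) => ((fun i => (f i).1), (fun i => (f i).2)))) ∘
      (fun (f : V → I × ((ℕ → I) × (ℕ → I))) => ((fun i => (f i).1), (fun i => (f i).2))) ∘
      (fun (U : V → I) v => dec (U v)) := rfl
  rw [e1, ← Measure.map_map (by fun_prop) (by fun_prop), ← Measure.map_map (by fun_prop) (by fun_prop),
    ← Measure.map_map (by fun_prop) (by fun_prop), h0, hν, h1,
    ← Measure.map_prod_map _ _ measurable_id (by fun_prop), h2, Measure.map_id,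
    ← Measure.map_prod_map _ _ measurable_id (by fun_prop), Measure.map_id,
    ← Measure.map_prod_map _ _ measurable_id (by fun_prop), Measure.map_id, h3]

theorem inj : S_INJ := by
  classical
  intro V _
  have key : ∀ v w : V, v ≠ w → ∀ᵐ o ∂(Measure.infinitePi (fun _ : V => (volume : Measure I))),
      o v ≠ o w := by
    intro v w hvw
    have h1 : Measure.map (fun o : V → I => (o v, o w))
        (Measure.infinitePi (fun _ : V => (volume : Measure I))) =
        (volume : Measure I).prod (volume : Measure I) := by
      symm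
      refine Measure.prod_eq fun s t hs ht => ?_
      rw [Measure.map_apply (by fun_prop) (hs.prod ht)]
      have h2 : (fun o : V → I => (o v, o w)) ⁻¹' (s ×ˢ t) =
          Set.pi (({v, w} : Finset V) : Set V) (fun i => if i = v then s else t) := by
        ext o
        simp [hvw.symm]
      rw [h2, Measure.infinitePi_pi _ (fun i _ => by split_ifs <;> assumption),
        Finset.prod_pair hvw]
      simp [hvw.symm]
    have h3 : ∀ᵐ p ∂((volume : Measure I).prod (volume : Measure I)), p.1 ≠ p.2 := by
      have hm : MeasurableSet {p : I × I | p.1 ≠ p.2} :=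
        (measurableSet_eq_fun measurable_fst measurable_snd).compl
      refine Measure.ae_prod_iff_ae_ae hm |>.2 ?_
      refine Eventually.of_forall fun x => ?_
      have : ∀ᵐ y ∂(volume : Measure I), y ≠ x := by
        rw [ae_iff]
        simp
      filter_upwards [this] with y hy
      exact hy.symm
    rw [← h1] at h3
    exact ae_of_ae_map (f := fun o : V → I => (o v, o w)) (p := fun p : I × I => p.1 ≠ p.2)
      (by fun_prop) h3
  have h4 : ∀ᵐ o ∂(Measure.infinitePi (fun _ : V => (volume : Measure I))),
      ∀ v w : V, v ≠ w → o v ≠ o w := by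
    rw [ae_all_iff]
    intro v
    rw [ae_all_iff]
    intro w
    by_cases hvw : v = w
    · exact Eventually.of_forall fun o h => (h hvw).elim
    · filter_upwards [key v w hvw] with o ho _
      exact ho
  filter_upwards [h4] with o ho v w hvw
  by_contra hne
  exact ho v w hne hvw

end Pool.Agent.Y284.WU
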